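import Mathlib

set_option autoImplicit false

namespace Pool.Agent.Results.MP_2af528_co.Counter

def IsIntervalPartition {S : Type} [PartialOrder S] (P : Finset (Set S)) : Prop :=
  (∀ B ∈ P, ∃ x y : S, x ≤ y ∧ B = Set.Icc x y) ∧
  (∀ B ∈ P, ∀ C ∈ P, B ≠ C → Disjoint B C) ∧ ∀ z : S, ∃ B ∈ P, z ∈ B

def T : Type := Fin 12

instance : DecidableEq T := inferInstanceAs (DecidableEq (Fin 12))
instance : Fintype T := inferInstanceAs (Fintype (Fin 12))

def up : Fin 12 → List (Fin 12) :=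
  ![[0,2,5,6,8,9,10,11], [1,3,4,7,8,9,10,11], [2,8,9,11], [3,8,9,10,11], [4,9,11], [5,8,11],
    [6,8,9,10,11], [7,10,11], [8,11], [9,11], [10,11], [11]]

instance : PartialOrder T where
  le a b := b ∈ up a
  le_refl := by change ∀ a : Fin 12, a ∈ up a; decide
  le_trans := by change ∀ a b c : Fin 12, b ∈ up a → c ∈ up b → c ∈ up a; decide
  le_antisymm := by change ∀ a b : Fin 12, b ∈ up a → a ∈ up b → a = b; decide

instance : DecidableRel (α := T) (· ≤ ·) := fun a b =>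
  inferInstanceAs (Decidable ((b : Fin 12) ∈ up a))

def n (i : Fin 12) : T := i

theorem result : ∃ (S : Type) (_ : Fintype S) (_ : PartialOrder S), Nonempty S ∧
    ∀ P : Finset (Set S), IsIntervalPartition P →
      (∀ Q : Finset (Set S), IsIntervalPartition Q → P.card ≤ Q.card) →
      ∀ x y : S, IsMin x → IsMax y → x ≤ y → Set.Icc x y ∉ P := by
  classical
  refine ⟨T, inferInstance, inferInstance, ⟨n 0⟩, fun P hP hopt x y hx hy _ hm => ?_⟩
  have h3 : P.card ≤ 3 := by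
    refine (hopt {Set.Icc (n 0) (n 8), Set.Icc (n 1) (n 10), Set.Icc (n 4) (n 11)}
      ⟨?_, ?_, ?_⟩).trans Finset.card_le_three
    · simp only [Finset.mem_insert, Finset.mem_singleton]
      rintro _ (rfl | rfl | rfl) <;> exact ⟨_, _, by decide, rfl⟩
    · simp only [Finset.mem_insert, Finset.mem_singleton]
      rintro _ (rfl | rfl | rfl) _ (rfl | rfl | rfl) h <;>
        first
        | exact absurd rfl h
        | (simp only [Set.disjoint_left, Set.mem_Icc]; decide)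
    · simp only [Finset.mem_insert, Finset.mem_singleton, exists_eq_or_imp, exists_eq_left,
        Set.mem_Icc]
      decide
  obtain ⟨h1, h2, h4⟩ := hP
  have key : ∀ x y : T, (∀ b, b ≤ x → x ≤ b) → (∀ b, y ≤ b → b ≤ y) → ∃ a b c : T,
      ¬ (x ≤ a ∧ a ≤ y) ∧ ¬ (x ≤ b ∧ b ≤ y) ∧ ¬ (x ≤ c ∧ c ≤ y) ∧
      (∀ u, a ≤ u → b ≤ u → x ≤ u ∧ u ≤ y) ∧ (∀ u, a ≤ u → c ≤ u → x ≤ u ∧ u ≤ y) ∧
      (∀ u, b ≤ u → c ≤ u → x ≤ u ∧ u ≤ y) := by
    have e : ∀ x y : T, (∀ b, b ≤ x → x ≤ b) → (∀ b, y ≤ b → b ≤ y) →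
        (x = n 0 ∨ x = n 1) ∧ y = n 11 := by decide
    intro x y hx hy
    obtain ⟨rfl | rfl, rfl⟩ := e x y hx hy
    · exact ⟨n 3, n 4, n 7, by decide⟩
    · exact ⟨n 2, n 5, n 6, by decide⟩
  obtain ⟨a, b, c, ha, hb, hc, hab, hac, hbc⟩ := key x y (fun b h => hx h) (fun b h => hy h)
  have sep : ∀ a b : T, ¬ (x ≤ a ∧ a ≤ y) → (∀ u, a ≤ u → b ≤ u → x ≤ u ∧ u ≤ y) →
      ∀ A ∈ P, ∀ B, a ∈ A → b ∈ B → A ≠ B := by
    rintro a b ha hab A hA B h5 h6 rfl
    obtain ⟨u, v, huv, rfl⟩ := h1 A hA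
    refine Set.disjoint_left.mp (h2 _ hA _ hm fun e => ha ?_) ⟨huv, le_rfl⟩ (hab v h5.2 h6.2)
    rw [e] at h5; exact h5
  obtain ⟨A, hA, a1⟩ := h4 a
  obtain ⟨B, hB, b1⟩ := h4 b
  obtain ⟨C, hC, c1⟩ := h4 c
  have n1 : Set.Icc x y ≠ A := fun e => ha (by rw [← e] at a1; exact a1)
  have n2 : Set.Icc x y ≠ B := fun e => hb (by rw [← e] at b1; exact b1)
  have n3 : Set.Icc x y ≠ C := fun e => hc (by rw [← e] at c1; exact c1)
  have n4 := sep a b ha hab A hA B a1 b1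
  have n5 := sep a c ha hac A hA C a1 c1
  have n6 := sep b c hb hbc B hB C b1 c1
  have := Finset.card_le_card (show ({Set.Icc x y, A, B, C} : Finset (Set T)) ⊆ P by
    intro z hz
    simp only [Finset.mem_insert, Finset.mem_singleton] at hz
    rcases hz with rfl | rfl | rfl | rfl <;> assumption)
  rw [Finset.card_insert_of_notMem (by simp [n1, n2, n3]),
    Finset.card_insert_of_notMem (by simp [n4, n5]), Finset.card_pair n6] at this
  omega

end Pool.Agent.Results.MP_2af528_co.Counter
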